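import Pool.Agent.Helper53.Pq.Goals
import Pool.Agent.Helper88.NO.D12
import Pool.Agent.Helper88.Gam.Values

/-!
MP_705522_gt, packet Pq-TV: the total variation bound.
-/

open MeasureTheory Set Filter Topology

noncomputable section

namespace Pool.Agent.Helper45.Pq

open Pool.Agent.Helper28.NO Pool.Agent.Helper7.Proj Pool.Agent.Helper88.NO
open Pool.Agent.Helper53.Pq

/-- the derivative of the density -/
def w1 (q z : ℝ) : ℝ := ((q - 2) * z ^ (q - 3) - q * z ^ (2 * q - 3)) * Real.exp (-z ^ q)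

theorem w0_deriv (q z : ℝ) (hz : 0 < z) : HasDerivAt (w0 q) (w1 q z) z := by
  have h1 : HasDerivAt (fun z : ℝ => z ^ (q - 2)) ((q - 2) * z ^ (q - 2 - 1)) z :=
    Real.hasDerivAt_rpow_const (Or.inl hz.ne')
  have h2 : HasDerivAt (fun z : ℝ => z ^ q) (q * z ^ (q - 1)) z :=
    Real.hasDerivAt_rpow_const (Or.inl hz.ne')
  have h3 := h1.mul h2.neg.exp
  refine h3.congr_deriv ?_
  have e1 : z ^ (2 * q - 3) = z ^ (q - 2) * z ^ (q - 1) := by
    rw [← Real.rpow_add hz]
    congr 1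
    ring
  have e2 : q - 2 - 1 = q - 3 := by ring
  rw [e2]
  unfold w1
  rw [e1]
  simp only [Pi.neg_apply]
  ring

theorem w0_tendsto (q : ℝ) (hq : 2 < q) : Tendsto (w0 q) atTop (𝓝 0) := by
  have h := tendsto_rpow_mul_exp_neg_mul_atTop_nhds_zero ((q - 2) / q) 1 one_pos
  have h2 := h.comp (tendsto_rpow_atTop (by linarith : 0 < q))
  refine h2.congr' ?_
  filter_upwards [eventually_gt_atTop 0] with z hz
  simp only [Function.comp]
  unfold w0
  rw [← Real.rpow_mul hz.le]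
  have e : q * ((q - 2) / q) = q - 2 := by field_simp
  rw [e]
  congr 2
  ring

theorem w1_int (q : ℝ) (hq : 2 < q) : IntegrableOn (w1 q) (Ioi 0) := by
  have h1 : IntegrableOn (fun z : ℝ => z ^ (q - 3) * Real.exp (-z ^ q)) (Ioi 0) :=
    integrableOn_rpow_mul_exp_neg_rpow (by linarith) (by linarith)
  have h2 : IntegrableOn (fun z : ℝ => z ^ (2 * q - 3) * Real.exp (-z ^ q)) (Ioi 0) :=
    integrableOn_rpow_mul_exp_neg_rpow (by linarith) (by linarith)
  have h3 : IntegrableOn ((fun z : ℝ => (q - 2) * (z ^ (q - 3) * Real.exp (-z ^ q))) -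
      fun z : ℝ => q * (z ^ (2 * q - 3) * Real.exp (-z ^ q))) (Ioi 0) :=
    (h1.const_mul (q - 2)).sub (h2.const_mul q)
  have e : w1 q = ((fun z : ℝ => (q - 2) * (z ^ (q - 3) * Real.exp (-z ^ q))) -
      fun z : ℝ => q * (z ^ (2 * q - 3) * Real.exp (-z ^ q))) := by
    funext z
    simp only [w1, Pi.sub_apply]
    ring
  rw [e]
  exact h3

theorem w0_cont (q : ℝ) (hq : 2 < q) : Continuous (w0 q) := by
  have h1 : Continuous fun z : ℝ => z ^ (q - 2) := Real.continuous_rpow_const (by linarith)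
  have h2 : Continuous fun z : ℝ => z ^ q := Real.continuous_rpow_const (by linarith)
  unfold w0
  fun_prop

theorem int_w1 (q : ℝ) (hq : 2 < q) (c : ℝ) (hc : 0 ≤ c) :
    ∫ z in Ioi c, w1 q z = - w0 q c := by
  have h := integral_Ioi_of_hasDerivAt_of_tendsto (a := c) (m := 0) (f := w0 q) (f' := w1 q)
    (w0_cont q hq).continuousWithinAt (fun z hz => w0_deriv q z (lt_of_le_of_lt hc hz))
    ((w1_int q hq).mono_set (Ioi_subset_Ioi hc)) (w0_tendsto q hq)
  rw [h]
  ring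

/-- the maximum point -/
def zs (q : ℝ) : ℝ := (1 - 2 / q) ^ (1 / q)

theorem zs_nonneg (q : ℝ) (hq : 2 < q) : 0 ≤ zs q := by
  apply Real.rpow_nonneg
  rw [sub_nonneg, div_le_one (by linarith)]
  exact hq.le

theorem zs_pow (q : ℝ) (hq : 2 < q) : zs q ^ q = 1 - 2 / q := by
  have h : 0 ≤ 1 - 2 / q := by
    rw [sub_nonneg, div_le_one (by linarith)]
    exact hq.le
  unfold zs
  rw [← Real.rpow_mul h, one_div, inv_mul_cancel₀ (by linarith), Real.rpow_one]

theorem w1_eq (q z : ℝ) (hz : 0 < z) :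
    w1 q z = z ^ (q - 3) * ((q - 2) - q * z ^ q) * Real.exp (-z ^ q) := by
  have e1 : z ^ (2 * q - 3) = z ^ (q - 3) * z ^ q := by
    rw [← Real.rpow_add hz]
    congr 1
    ring
  unfold w1
  rw [e1]
  ring

theorem w1_nonneg (q : ℝ) (hq : 2 < q) (z : ℝ) (hz : 0 < z) (h : z ≤ zs q) : 0 ≤ w1 q z := by
  rw [w1_eq q z hz]
  have h1 : z ^ q ≤ 1 - 2 / q := by
    rw [← zs_pow q hq]
    exact Real.rpow_le_rpow hz.le h (by linarith)
  have h2 : q * z ^ q ≤ q - 2 := by
    calc q * z ^ q ≤ q * (1 - 2 / q) := mul_le_mul_of_nonneg_left h1 (by linarith)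
      _ = q - 2 := by field_simp
  have h3 : 0 ≤ z ^ (q - 3) := Real.rpow_nonneg hz.le _
  have h4 : 0 ≤ (q - 2) - q * z ^ q := by linarith
  positivity

theorem w1_nonpos (q : ℝ) (hq : 2 < q) (z : ℝ) (h : zs q < z) : w1 q z ≤ 0 := by
  have hz : 0 < z := lt_of_le_of_lt (zs_nonneg q hq) h
  rw [w1_eq q z hz]
  have h1 : 1 - 2 / q ≤ z ^ q := by
    rw [← zs_pow q hq]
    exact Real.rpow_le_rpow (zs_nonneg q hq) h.le (by linarith)
  have h2 : q - 2 ≤ q * z ^ q := by
    calc q - 2 = q * (1 - 2 / q) := by field_simp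
      _ ≤ q * z ^ q := mul_le_mul_of_nonneg_left h1 (by linarith)
  have h3 : 0 ≤ z ^ (q - 3) := Real.rpow_nonneg hz.le _
  have h4 : z ^ (q - 3) * ((q - 2) - q * z ^ q) ≤ 0 :=
    mul_nonpos_of_nonneg_of_nonpos h3 (by linarith)
  exact mul_nonpos_of_nonpos_of_nonneg h4 (Real.exp_pos _).le

theorem int_abs_w1 (q : ℝ) (hq : 2 < q) : ∫ z in Ioi (0 : ℝ), |w1 q z| = 2 * w0 q (zs q) := by
  have hz := zs_nonneg q hq
  have hI := w1_int q hq
  have hs : Ioi (0 : ℝ) = Ioc 0 (zs q) ∪ Ioi (zs q) := (Ioc_union_Ioi_eq_Ioi hz).symm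
  have hd : Disjoint (Ioc 0 (zs q)) (Ioi (zs q)) := Ioc_disjoint_Ioi le_rfl
  have hI1 : IntegrableOn (w1 q) (Ioc 0 (zs q)) := hI.mono_set (by rw [hs]; exact subset_union_left)
  have hI2 : IntegrableOn (w1 q) (Ioi (zs q)) := hI.mono_set (by rw [hs]; exact subset_union_right)
  have e0 : ∫ z in Ioi (0 : ℝ), w1 q z = (∫ z in Ioc 0 (zs q), w1 q z) + ∫ z in Ioi (zs q), w1 q z := by
    rw [hs]
    exact setIntegral_union hd measurableSet_Ioi hI1 hI2
  have e1 : ∫ z in Ioi (0 : ℝ), |w1 q z| =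
      (∫ z in Ioc 0 (zs q), |w1 q z|) + ∫ z in Ioi (zs q), |w1 q z| := by
    rw [hs]
    exact setIntegral_union hd measurableSet_Ioi hI1.abs hI2.abs
  have e2 : ∫ z in Ioc 0 (zs q), |w1 q z| = ∫ z in Ioc 0 (zs q), w1 q z :=
    setIntegral_congr_fun measurableSet_Ioc fun z hz =>
      abs_of_nonneg (w1_nonneg q hq z hz.1 hz.2)
  have e3 : ∫ z in Ioi (zs q), |w1 q z| = - ∫ z in Ioi (zs q), w1 q z := by
    rw [← integral_neg]
    exact setIntegral_congr_fun measurableSet_Ioi fun z hz =>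
      abs_of_nonpos (w1_nonpos q hq z hz)
  have e4 := int_w1 q hq 0 le_rfl
  have e5 := int_w1 q hq (zs q) hz
  have e6 : w0 q 0 = 0 := by
    unfold w0
    rw [Real.zero_rpow (by linarith), zero_mul]
  rw [e6] at e4
  rw [e1, e2, e3, e5]
  rw [e4, e5] at e0
  linarith

theorem cos_bound (q : ℝ) (hq : 2 < q) (s : ℝ) (hs : 0 < s) :
    |∫ z in Ioi (0 : ℝ), Real.cos (s * z) * w0 q z| ≤ 2 * w0 q (zs q) / s := by
  have hI0 := w0_int q hq
  have hI1 := w1_int q hq
  have hc : IntegrableOn (fun z => Real.cos (s * z) * w0 q z) (Ioi 0) := by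
    refine hI0.bdd_mul (c := 1) (by fun_prop : Continuous fun z => Real.cos (s * z)).aestronglyMeasurable ?_
    exact Eventually.of_forall fun z => by
      rw [Real.norm_eq_abs]
      exact Real.abs_cos_le_one _
  have hsn : IntegrableOn (fun z => Real.sin (s * z) * w1 q z) (Ioi 0) := by
    refine hI1.bdd_mul (c := 1) (by fun_prop : Continuous fun z => Real.sin (s * z)).aestronglyMeasurable ?_
    exact Eventually.of_forall fun z => by
      rw [Real.norm_eq_abs]
      exact Real.abs_sin_le_one _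
  have h := integral_Ioi_of_hasDerivAt_of_tendsto (a := 0) (m := 0)
    (f := fun z => Real.sin (s * z) * w0 q z)
    (f' := fun z => s * (Real.cos (s * z) * w0 q z) + Real.sin (s * z) * w1 q z)
    ?_ ?_ ?_ ?_
  · rw [integral_add (hc.const_mul s) hsn, integral_const_mul] at h
    have h1 : s * ∫ z in Ioi (0 : ℝ), Real.cos (s * z) * w0 q z =
        - ∫ z in Ioi (0 : ℝ), Real.sin (s * z) * w1 q z := by
      have : Real.sin (s * 0) * w0 q 0 = 0 := by simp
      rw [this] at h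
      linarith
    have h2 : |∫ z in Ioi (0 : ℝ), Real.sin (s * z) * w1 q z| ≤ 2 * w0 q (zs q) := by
      rw [← int_abs_w1 q hq]
      refine (abs_integral_le_integral_abs).trans ?_
      refine integral_mono hsn.abs hI1.abs fun z => ?_
      show |Real.sin (s * z) * w1 q z| ≤ |w1 q z|
      rw [abs_mul]
      exact mul_le_of_le_one_left (abs_nonneg _) (Real.abs_sin_le_one _)
    rw [le_div_iff₀ hs]
    have h3 : |s * ∫ z in Ioi (0 : ℝ), Real.cos (s * z) * w0 q z| ≤ 2 * w0 q (zs q) := by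
      rw [h1, abs_neg]
      exact h2
    rw [abs_mul, abs_of_pos hs, mul_comm] at h3
    exact h3
  · refine Continuous.continuousWithinAt ?_
    have := w0_cont q hq
    fun_prop
  · intro z hz
    have hz' : 0 < z := hz
    have h1 : HasDerivAt (fun z => Real.sin (s * z)) (Real.cos (s * z) * s) z := by
      have := (((hasDerivAt_id z).const_mul s).sin)
      simpa using this
    refine (h1.mul (w0_deriv q z hz')).congr_deriv ?_
    ring
  · exact (hc.const_mul s).add hsn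
  · have h1 := w0_tendsto q hq
    refine squeeze_zero_norm' ?_ ((h1.norm).trans (by rw [norm_zero]))
    filter_upwards with z
    rw [norm_mul]
    exact mul_le_of_le_one_left (norm_nonneg _) (by rw [Real.norm_eq_abs]; exact Real.abs_sin_le_one _)

theorem w0_zs (q : ℝ) (hq : 2 < q) :
    w0 q (zs q) = Real.exp ((1 - 2 / q) * Real.log (1 - 2 / q) - (1 - 2 / q)) := by
  have h : 0 < 1 - 2 / q := by
    rw [sub_pos, div_lt_one (by linarith)]
    exact hq
  unfold w0
  rw [zs_pow q hq, sub_eq_add_neg ((1 - 2 / q) * Real.log (1 - 2 / q)), Real.exp_add]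
  congr 1
  unfold zs
  rw [← Real.rpow_mul h.le, Real.rpow_def_of_pos h]
  congr 1
  have : 1 / q * (q - 2) = 1 - 2 / q := by field_simp
  rw [this]
  ring

theorem Zd_gamma (q : ℝ) (hq : 2 < q) : Zd q = (1 / q) * Real.Gamma (1 - 1 / q) := by
  have h2 : Zd q = (1 / q) * Real.Gamma ((q - 2 + 1) / q) :=
    integral_rpow_mul_exp_neg_rpow (by linarith) (by linarith)
  rw [h2]
  congr 2
  field_simp
  ring

theorem gamma_ge {θ : ℝ} (h1 : 1 / 6 ≤ θ) (h2 : θ ≤ 1 / 4) : 1.12 ≤ Real.Gamma (1 - θ) := by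
  have hv := Pool.Agent.Helper88.Gam.one_sub_0.1
  have e : (1 : ℝ) - 16 / 96 = 5 / 6 := by norm_num
  rw [e] at hv
  by_contra hlt
  rw [not_le] at hlt
  have hconv := Real.convexOn_Gamma
  have hx : (1 - θ) ∈ Ioi (0 : ℝ) := by
    show 0 < 1 - θ
    linarith
  have hy : (1 : ℝ) ∈ Ioi (0 : ℝ) := by
    show (0 : ℝ) < 1
    norm_num
  set lam : ℝ := (1 / 6) / θ with hl
  have hθ : 0 < θ := by linarith
  have hl0 : 0 ≤ lam := by positivity
  have hl1 : lam ≤ 1 := by
    rw [hl, div_le_one hθ]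
    exact h1
  have hc := hconv.2 hx hy hl0 (by linarith : 0 ≤ 1 - lam) (by ring)
  have e2 : lam • (1 - θ) + (1 - lam) • (1 : ℝ) = 5 / 6 := by
    simp only [smul_eq_mul]
    rw [hl]
    field_simp
    ring
  rw [e2, Real.Gamma_one] at hc
  simp only [smul_eq_mul, mul_one] at hc
  nlinarith

theorem m_half : Real.exp (1 / 2 * Real.log (1 / 2) - 1 / 2) ≤ 0.42889 := by
  have h : Real.exp (1 / 2 * Real.log (1 / 2) - 1 / 2) ^ 2 ≤ 0.42889 ^ 2 := by
    rw [← Real.exp_nat_mul]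
    have e : ((2 : ℕ) : ℝ) * (1 / 2 * Real.log (1 / 2) - 1 / 2) = Real.log (1 / 2) + -1 := by
      push_cast
      ring
    rw [e, Real.exp_add, Real.exp_log (by norm_num)]
    have := Real.exp_neg_one_lt_d9
    nlinarith
  exact le_of_sq_le_sq h (by norm_num)

theorem m_third : Real.exp (2 / 3 * Real.log (2 / 3) - 2 / 3) ≤ 0.392 := by
  have h : Real.exp (2 / 3 * Real.log (2 / 3) - 2 / 3) ^ 3 ≤ 0.392 ^ 3 := by
    rw [← Real.exp_nat_mul]
    have e : ((3 : ℕ) : ℝ) * (2 / 3 * Real.log (2 / 3) - 2 / 3) =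
        Real.log (2 / 3) + Real.log (2 / 3) + (-1) + (-1) := by
      push_cast
      ring
    rw [e, Real.exp_add, Real.exp_add, Real.exp_add, Real.exp_log (by norm_num)]
    have h1 := Real.exp_neg_one_lt_d9
    have h2 := Real.exp_pos (-1)
    nlinarith [mul_pos h2 h2]
  exact le_of_pow_le_pow_left₀ (by norm_num) (by norm_num) h

theorem m_conv : ConvexOn ℝ (Ici (0 : ℝ)) fun w : ℝ => Real.exp (w * Real.log w - w) := by
  have h1 : ConvexOn ℝ (Ici (0 : ℝ)) fun w : ℝ => w * Real.log w - w := by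
    have h2 : ConvexOn ℝ (Ici (0 : ℝ)) fun w : ℝ => w * Real.log w := Real.convexOn_mul_log
    have h3 : ConcaveOn ℝ (Ici (0 : ℝ)) fun w : ℝ => w := concaveOn_id (convex_Ici 0)
    exact h2.sub h3
  refine ⟨convex_Ici 0, fun x hx y hy a b ha hb hab => ?_⟩
  have h4 := h1.2 hx hy ha hb hab
  refine (Real.exp_le_exp.2 h4).trans ?_
  exact convexOn_exp.2 (mem_univ _) (mem_univ _) ha hb hab

theorem m_le {θ : ℝ} (h1 : 1 / 6 ≤ θ) (h2 : θ ≤ 1 / 4) :
    Real.exp ((1 - 2 * θ) * Real.log (1 - 2 * θ) - (1 - 2 * θ)) ≤ 0.392 + 0.4431 * (θ - 1 / 6) := by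
  set lam : ℝ := 12 * (θ - 1 / 6) with hl
  have hl0 : 0 ≤ lam := by rw [hl]; linarith
  have hl1 : 0 ≤ 1 - lam := by rw [hl]; linarith
  have hc := m_conv.2 (show (1 / 2 : ℝ) ∈ Ici (0 : ℝ) from by show (0 : ℝ) ≤ 1 / 2; norm_num)
    (show (2 / 3 : ℝ) ∈ Ici (0 : ℝ) from by show (0 : ℝ) ≤ 2 / 3; norm_num) hl0 hl1 (by ring)
  have e : lam • (1 / 2 : ℝ) + (1 - lam) • (2 / 3 : ℝ) = 1 - 2 * θ := by
    simp only [smul_eq_mul]
    rw [hl]
    ring
  simp only [e] at hc
  simp only [smul_eq_mul] at hc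
  have h3 := mul_le_mul_of_nonneg_left m_half hl0
  have h4 := mul_le_mul_of_nonneg_left m_third hl1
  refine hc.trans ((add_le_add h3 h4).trans ?_)
  rw [hl]
  linarith

theorem gTV : GTV := by
  intro θ h1 h2 t ht
  have hθ : 0 < θ := by linarith
  set q : ℝ := 1 / θ with hq
  have hqq : 2 < q := by
    rw [hq, lt_div_iff₀ hθ]
    linarith
  have hqθ : 1 / q = θ := by rw [hq, one_div_one_div]
  have hq2 : 2 / q = 2 * θ := by
    rw [hq]
    field_simp
  have hq0 : 0 < q := by linarith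
  have hZ : 0 < Zd q := Zd_pos q hqq
  have hpi := Real.pi_gt_d6
  have hpi0 := Real.pi_pos
  have ht0 : 0 < t := by linarith
  set s : ℝ := q * Zd q * t with hs
  have hs0 : 0 < s := by positivity
  have hrel : ph (mu q) t = (∫ z in Ioi (0 : ℝ), Real.cos (s * z) * w0 q z) / Zd q := by
    rw [ph, mu, integral_map (by fun_prop) (by fun_prop), int_muZ q hqq, ← integral_div]
    refine setIntegral_congr_fun measurableSet_Ioi fun z _ => ?_
    show w0 q z / Zd q * Real.cos (t * (q * Zd q * z)) = Real.cos (s * z) * w0 q z / Zd q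
    have : t * (q * Zd q * z) = s * z := by rw [hs]; ring
    rw [this]
    ring
  have hb := cos_bound q hqq s hs0
  rw [w0_zs q hqq, hq2] at hb
  have hm := m_le h1 h2
  set m := Real.exp ((1 - 2 * θ) * Real.log (1 - 2 * θ) - (1 - 2 * θ)) with hmdef
  have hm0 : 0 < m := Real.exp_pos _
  have hg := gamma_ge h1 h2
  have hZg : Zd q = θ * Real.Gamma (1 - θ) := by
    rw [Zd_gamma q hqq, hqθ]
  rw [hrel, abs_div, abs_of_pos hZ, div_le_iff₀ hZ]
  refine hb.trans ?_
  rw [div_le_iff₀ hs0]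
  have hqZ : q * Zd q = Real.Gamma (1 - θ) := by
    rw [hZg, hq]
    field_simp
  rw [hs, hqZ, hZg]
  set γ := Real.Gamma (1 - θ) with hγ
  have hH : 0 ≤ HH θ := by
    unfold HH
    linarith
  have hγ2 : 1.2544 ≤ γ * γ := by nlinarith
  have key : 2 * m ≤ HH θ * θ * 1.2544 * (3 * Real.pi / 2) := by
    have hk : 2 * (0.392 + 0.4431 * (θ - 1 / 6)) ≤ HH θ * θ * 1.2544 * 4.71238 := by
      unfold HH
      nlinarith [mul_nonneg (sub_nonneg.2 h1) (sub_nonneg.2 h2)]
    have h5 : HH θ * θ * 1.2544 * 4.71238 ≤ HH θ * θ * 1.2544 * (3 * Real.pi / 2) := by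
      apply mul_le_mul_of_nonneg_left (by linarith)
      positivity
    linarith
  refine key.trans ?_
  have h6 : HH θ * θ * 1.2544 * (3 * Real.pi / 2) ≤ HH θ * θ * (γ * γ) * t := by
    apply mul_le_mul _ ht (by positivity) (by positivity)
    apply mul_le_mul_of_nonneg_left hγ2
    positivity
  refine h6.trans (le_of_eq ?_)
  ring

end Pool.Agent.Helper45.Pq
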